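import Pool.Agent.Lib.MP_d55432_al.SIX.Iface

/-!
# SIX: AD, invariants of automorphisms of `sl₄`
-/

namespace Pool.Agent.Lib.MP_d55432_al.SIX.H97

open Matrix LieAlgebra

attribute [local instance 100] LieRing.ofAssociativeRing

section matrices

variable {n : Type*} [Fintype n] [DecidableEq n] {K : Type*} [Field K]

theorem trace_matrix (G : Matrix n n K →ₗ[K] Matrix n n K) :
    LinearMap.trace K _ G = ∑ i, ∑ j, G (Matrix.single i j 1) i j := by
  rw [LinearMap.trace_eq_matrix_trace K (Matrix.stdBasis K n n), Matrix.trace,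
    Fintype.sum_prod_type]
  refine Finset.sum_congr rfl fun i _ => Finset.sum_congr rfl fun j _ => ?_
  rw [Matrix.diag_apply, LinearMap.toMatrix_apply, Matrix.stdBasis_eq_single]
  rfl

theorem sum_single (a b : Matrix n n K) :
    ∑ i : n, ∑ j : n, (a * Matrix.single i j (1 : K) * b : Matrix n n K) i j =
      a.trace * b.trace := by
  have h : ∀ i j : n, (a * Matrix.single i j (1 : K) * b : Matrix n n K) i j = a i i * b j j := by
    intro i j
    rw [Matrix.mul_apply, Finset.sum_eq_single j]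
    · simp
    · intro k _ hk
      rw [Matrix.mul_single_apply_of_ne (hbj := hk), zero_mul]
    · simp
  simp only [h]
  rw [Matrix.trace, Matrix.trace, Finset.sum_mul_sum]
  rfl

/-- Powers of the commutator operator. -/
theorem sub_pow_apply (x Y : Matrix n n K) (k : ℕ) :
    ((LinearMap.mulLeft K x - LinearMap.mulRight K x) ^ k) Y =
      ∑ m ∈ Finset.range (k + 1), ((k.choose m : K) * (-1) ^ (k - m)) • (x ^ m * Y * x ^ (k - m)) := by
  have hc : Commute (LinearMap.mulLeft K x) (-LinearMap.mulRight K x) := by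
    change LinearMap.mulLeft K x * (-LinearMap.mulRight K x) =
      (-LinearMap.mulRight K x) * LinearMap.mulLeft K x
    apply LinearMap.ext
    intro Z
    rw [Module.End.mul_apply, Module.End.mul_apply, LinearMap.mulLeft_apply,
      LinearMap.mulLeft_apply, LinearMap.neg_apply, LinearMap.neg_apply,
      LinearMap.mulRight_apply, LinearMap.mulRight_apply, Matrix.mul_neg, Matrix.mul_assoc]
  have hR : ∀ (j : ℕ) (Z : Matrix n n K), ((-LinearMap.mulRight K x) ^ j) Z =
      ((-1 : K) ^ j) • (Z * x ^ j) := by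
    intro j
    induction j with
    | zero => intro Z; simp
    | succ j ih =>
      intro Z
      rw [pow_succ', Module.End.mul_apply, ih, LinearMap.neg_apply, LinearMap.mulRight_apply,
        Matrix.smul_mul, Matrix.mul_assoc, ← pow_succ, ← smul_neg, pow_succ (-1 : K), mul_smul,
        neg_smul, one_smul]
  rw [sub_eq_add_neg, hc.add_pow, LinearMap.sum_apply]
  refine Finset.sum_congr rfl fun m _ => ?_
  have h1 : ((k.choose m : Module.End K (Matrix n n K))) Y = (k.choose m : K) • Y := by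
    rw [Module.End.natCast_apply, Nat.cast_smul_eq_nsmul]
  rw [Module.End.mul_apply, h1, map_smul, mul_smul, Module.End.mul_apply, hR, map_smul,
    LinearMap.pow_mulLeft, LinearMap.mulLeft_apply, Matrix.mul_assoc]

end matrices

variable {K : Type*} [Field K]

theorem coe_lie4 (X Y : L4 K) : (⁅X, Y⁆ : L4 K).1 = X.1 * Y.1 - Y.1 * X.1 := rfl

theorem coe_ad_pow (X Y : L4 K) (k : ℕ) : (((LieAlgebra.ad K (L4 K) X) ^ k) Y).1 =
    ((LinearMap.mulLeft K X.1 - LinearMap.mulRight K X.1) ^ k) Y.1 := by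
  induction k with
  | zero => rfl
  | succ k ih =>
    rw [pow_succ', pow_succ', Module.End.mul_apply, Module.End.mul_apply, LieAlgebra.ad_apply,
      coe_lie4, ih]
    rfl

theorem trace_mem (X : L4 K) : X.1.trace = 0 := (mem_sl _).1 X.2

variable [CharZero K]

/-- The projection onto `sl₄`. -/
def proj : M4 K →ₗ[K] L4 K where
  toFun Y := mk4 (Y - (Y.trace / 4) • (1 : M4 K)) (by
    rw [trace_sub, trace_smul, trace_one, Fintype.card_fin, smul_eq_mul]
    push_cast
    field_simp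
    ring)
  map_add' Y Z := by
    apply Subtype.ext
    change Y + Z - ((Y + Z).trace / 4) • (1 : M4 K) =
      (Y - (Y.trace / 4) • (1 : M4 K)) + (Z - (Z.trace / 4) • (1 : M4 K))
    rw [trace_add, add_div, add_smul]
    abel
  map_smul' c Y := by
    apply Subtype.ext
    change c • Y - ((c • Y).trace / 4) • (1 : M4 K) = c • (Y - (Y.trace / 4) • (1 : M4 K))
    rw [trace_smul, smul_eq_mul, mul_div_assoc, mul_smul, smul_sub]

theorem proj_coe (Y : M4 K) : (proj Y).1 = Y - (Y.trace / 4) • (1 : M4 K) := rfl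

theorem proj_sl (X : L4 K) : proj X.1 = X := by
  apply Subtype.ext
  rw [proj_coe, trace_mem, zero_div, zero_smul, sub_zero]

/-- Traces over `sl₄`. -/
theorem trace_sl (F : L4 K →ₗ[K] L4 K) :
    LinearMap.trace K _ F = ∑ i, ∑ j, (F (proj (Matrix.single i j 1))).1 i j := by
  have h1 : F = (F ∘ₗ proj) ∘ₗ (LieAlgebra.SpecialLinear.sl (Fin 4) K).toSubmodule.subtype := by
    ext x : 1
    change F x = F (proj x.1)
    rw [proj_sl]
  conv_lhs => rw [h1]
  rw [LinearMap.trace_comp_comm', trace_matrix]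
  rfl

theorem trace_ad_pow (X : L4 K) (k : ℕ) :
    LinearMap.trace K _ ((LieAlgebra.ad K (L4 K) X) ^ (k + 1)) =
      ∑ m ∈ Finset.range (k + 2), ((k + 1).choose m : K) * (-1) ^ (k + 1 - m) *
        ((X.1 ^ m).trace * (X.1 ^ (k + 1 - m)).trace) := by
  rw [trace_sl]
  have h0 : ∀ Y : M4 K, (((LieAlgebra.ad K (L4 K) X) ^ (k + 1)) (proj Y)).1 =
      ((LinearMap.mulLeft K X.1 - LinearMap.mulRight K X.1) ^ (k + 1)) Y := by
    intro Y
    rw [coe_ad_pow, proj_coe, map_sub, map_smul]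
    have h1 : ((LinearMap.mulLeft K X.1 - LinearMap.mulRight K X.1) ^ (k + 1)) (1 : M4 K) = 0 := by
      rw [pow_succ, Module.End.mul_apply]
      have h2 : (LinearMap.mulLeft K X.1 - LinearMap.mulRight K X.1) (1 : M4 K) = 0 := by
        rw [LinearMap.sub_apply, LinearMap.mulLeft_apply, LinearMap.mulRight_apply,
          Matrix.mul_one, Matrix.one_mul, sub_self]
      rw [h2, map_zero]
    rw [h1, smul_zero, sub_zero]
  simp only [h0, sub_pow_apply, Matrix.sum_apply, Matrix.smul_apply, smul_eq_mul]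
  have h2 : ∀ G : Fin 4 → Fin 4 → ℕ → K, ∑ i, ∑ j, ∑ m ∈ Finset.range (k + 1 + 1), G i j m =
      ∑ m ∈ Finset.range (k + 1 + 1), ∑ i, ∑ j, G i j m := by
    intro G
    calc _ = ∑ i, ∑ m ∈ Finset.range (k + 1 + 1), ∑ j, G i j m :=
          Finset.sum_congr rfl fun i _ => Finset.sum_comm
      _ = _ := Finset.sum_comm
  rw [h2]
  refine Finset.sum_congr rfl fun m _ => ?_
  simp only [← Finset.mul_sum]
  rw [sum_single]

theorem trace_ad_two (X : L4 K) : LinearMap.trace K _ ((LieAlgebra.ad K (L4 K) X) ^ 2) =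
    8 * (X.1 ^ 2).trace := by
  rw [trace_ad_pow X 1]
  simp only [Finset.sum_range_succ, Finset.sum_range_zero, Nat.choose]
  simp only [pow_zero, Matrix.trace_one, pow_one, trace_mem, Fintype.card_fin]
  norm_num [trace_mem]
  ring

theorem trace_ad_four (X : L4 K) : LinearMap.trace K _ ((LieAlgebra.ad K (L4 K) X) ^ 4) =
    8 * (X.1 ^ 4).trace + 6 * (X.1 ^ 2).trace ^ 2 := by
  rw [trace_ad_pow X 3]
  simp only [Finset.sum_range_succ, Finset.sum_range_zero, Nat.choose]
  simp only [pow_zero, Matrix.trace_one, pow_one, trace_mem, Fintype.card_fin]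
  norm_num [trace_mem]
  ring

theorem trace_ad_six (X : L4 K) : LinearMap.trace K _ ((LieAlgebra.ad K (L4 K) X) ^ 6) =
    8 * (X.1 ^ 6).trace + 30 * (X.1 ^ 2).trace * (X.1 ^ 4).trace - 20 * (X.1 ^ 3).trace ^ 2 := by
  rw [trace_ad_pow X 5]
  simp only [Finset.sum_range_succ, Finset.sum_range_zero, Nat.choose]
  simp only [pow_zero, Matrix.trace_one, pow_one, trace_mem, Fintype.card_fin]
  norm_num [trace_mem]
  ring

omit [CharZero K] in
/-- Traces of powers of the adjoint action are invariant under automorphisms. -/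
theorem trace_ad_equiv {L : Type*} [LieRing L] [LieAlgebra K L] (φ : L ≃ₗ⁅K⁆ L) (x : L) (k : ℕ) :
    LinearMap.trace K _ ((LieAlgebra.ad K L (φ x)) ^ k) =
      LinearMap.trace K _ ((LieAlgebra.ad K L x) ^ k) := by
  have h1 : LieAlgebra.ad K L (φ x) = φ.toLinearEquiv.conj (LieAlgebra.ad K L x) := by
    ext y
    rw [LinearEquiv.conj_apply]
    change ⁅φ x, y⁆ = φ ⁅x, φ.symm y⁆
    rw [LieEquiv.map_lie, LieEquiv.apply_symm_apply]
  rw [h1, ← LinearMap.trace_conj' ((LieAlgebra.ad K L x) ^ k) φ.toLinearEquiv]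
  congr 1
  exact (map_pow φ.toLinearEquiv.conjRingEquiv (LieAlgebra.ad K L x) k).symm

theorem trace_two_equiv (φ : L4 K ≃ₗ⁅K⁆ L4 K) (X : L4 K) :
    ((φ X).1 ^ 2).trace = (X.1 ^ 2).trace := by
  have h := trace_ad_equiv φ X 2
  rw [trace_ad_two, trace_ad_two] at h
  exact mul_left_cancel₀ (by norm_num) h

theorem trace_four_equiv (φ : L4 K ≃ₗ⁅K⁆ L4 K) (X : L4 K) :
    ((φ X).1 ^ 4).trace = (X.1 ^ 4).trace := by
  have h := trace_ad_equiv φ X 4
  rw [trace_ad_four, trace_ad_four, trace_two_equiv] at h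
  exact mul_left_cancel₀ (by norm_num) (add_right_cancel h)

theorem trace_six (hC : CHC_S K) (X : L4 K) : (X.1 ^ 6).trace =
    (X.1 ^ 2).trace / 2 * (X.1 ^ 4).trace + (X.1 ^ 3).trace ^ 2 / 3 -
      ((X.1 ^ 2).trace ^ 2 / 8 - (X.1 ^ 4).trace / 4) * (X.1 ^ 2).trace := by
  have h1 := hC X.1 (trace_mem X)
  have h2 : X.1 * X.1 = X.1 ^ 2 := (pow_two _).symm
  have h3 : X.1 * X.1 * X.1 = X.1 ^ 3 := by rw [pow_succ, pow_two]
  have h4 : X.1 * X.1 * X.1 * X.1 = X.1 ^ 4 := by rw [pow_succ, ← h3]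
  rw [h4, h3, h2] at h1
  have h5 : X.1 ^ 6 = X.1 ^ 4 * X.1 ^ 2 := by rw [← pow_add]
  have h6 := congrArg (fun M => (M * X.1 ^ 2).trace) h1
  simp only [← h5] at h6
  rw [h6]
  rw [Matrix.sub_mul, Matrix.add_mul, Matrix.smul_mul, Matrix.smul_mul, Matrix.smul_mul,
    ← pow_add, ← pow_succ', Matrix.one_mul, trace_sub, trace_add, trace_smul, trace_smul,
    trace_smul, smul_eq_mul, smul_eq_mul, smul_eq_mul]
  ring

theorem trace_three_sq_equiv (hC : CHC_S K) (φ : L4 K ≃ₗ⁅K⁆ L4 K) (X : L4 K) :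
    ((φ X).1 ^ 3).trace ^ 2 = (X.1 ^ 3).trace ^ 2 := by
  have h := trace_ad_equiv φ X 6
  rw [trace_ad_six, trace_ad_six, trace_six hC, trace_six hC, trace_two_equiv,
    trace_four_equiv] at h
  have h2 : (52 : K) * ((φ X).1 ^ 3).trace ^ 2 = 52 * (X.1 ^ 3).trace ^ 2 := by
    linear_combination (-3 : K) * h
  exact mul_left_cancel₀ (by norm_num) h2

theorem trace_mul_equiv (φ : L4 K ≃ₗ⁅K⁆ L4 K) (X Y : L4 K) :
    ((φ X).1 * (φ Y).1).trace = (X.1 * Y.1).trace := by
  have h : ∀ u v : L4 K, ((u + v).1 ^ 2).trace =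
      (u.1 ^ 2).trace + 2 * (u.1 * v.1).trace + (v.1 ^ 2).trace := by
    intro u v
    have h1 : (u + v).1 ^ 2 = u.1 ^ 2 + u.1 * v.1 + v.1 * u.1 + v.1 ^ 2 := by
      change (u.1 + v.1) ^ 2 = _
      noncomm_ring
    rw [h1, Matrix.trace_add, Matrix.trace_add, Matrix.trace_add, Matrix.trace_mul_comm v.1 u.1]
    ring
  have h1 := trace_two_equiv φ (X + Y)
  rw [map_add, h, h, trace_two_equiv, trace_two_equiv] at h1
  have h2 : (2 : K) * ((φ X).1 * (φ Y).1).trace = 2 * (X.1 * Y.1).trace := by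
    linear_combination h1
  exact mul_left_cancel₀ two_ne_zero h2

omit [CharZero K] in
theorem trace_cube_line (U V : M4 K) (t : K) : ((U + t • V) ^ 3).trace =
    (U ^ 3).trace + 3 * t * (U ^ 2 * V).trace + 3 * t ^ 2 * (V ^ 2 * U).trace +
      t ^ 3 * (V ^ 3).trace := by
  have h1 : (U + t • V) ^ 3 = U ^ 3 + t • (U ^ 2 * V + U * V * U + V * U ^ 2) +
      t ^ 2 • (V ^ 2 * U + V * U * V + U * V ^ 2) + t ^ 3 • V ^ 3 := by
    simp only [pow_succ, pow_zero, one_mul, Matrix.add_mul, Matrix.mul_add, Matrix.smul_mul,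
      Matrix.mul_smul, smul_add, smul_smul, mul_assoc]
    abel
  have h2 : (U * V * U).trace = (U ^ 2 * V).trace := by
    rw [Matrix.trace_mul_comm, pow_two, Matrix.mul_assoc]
  have h3 : (V * U ^ 2).trace = (U ^ 2 * V).trace := Matrix.trace_mul_comm _ _
  have h4 : (V * U * V).trace = (V ^ 2 * U).trace := by
    rw [Matrix.trace_mul_comm, pow_two, Matrix.mul_assoc]
  have h5 : (U * V ^ 2).trace = (V ^ 2 * U).trace := Matrix.trace_mul_comm _ _
  rw [h1]
  simp only [trace_add, trace_smul, smul_eq_mul, h2, h3, h4, h5]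
  ring

/-- The cubic invariant is preserved up to a sign. -/
theorem trace_three_equiv (hC : CHC_S K) (φ : L4 K ≃ₗ⁅K⁆ L4 K) : ∃ ε : K, ε * ε = 1 ∧
    ∀ X : L4 K, ((φ X).1 ^ 3).trace = ε * (X.1 ^ 3).trace := by
  by_cases h0 : ∀ X : L4 K, ((φ X).1 ^ 3).trace = (X.1 ^ 3).trace
  · exact ⟨1, one_mul 1, fun X => by rw [h0, one_mul]⟩
  · push Not at h0
    obtain ⟨A, hA⟩ := h0
    refine ⟨-1, by ring, fun B => ?_⟩
    let D : L4 K := B - A
    obtain ⟨P, hP⟩ : ∃ P : Polynomial K, ∀ t : K,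
        P.eval t = ((φ (A + t • D)).1 ^ 3).trace := by
      refine ⟨Polynomial.C ((φ A).1 ^ 3).trace +
        Polynomial.C (3 * ((φ A).1 ^ 2 * (φ D).1).trace) * Polynomial.X +
        Polynomial.C (3 * ((φ D).1 ^ 2 * (φ A).1).trace) * Polynomial.X ^ 2 +
        Polynomial.C ((φ D).1 ^ 3).trace * Polynomial.X ^ 3, fun t => ?_⟩
      have h1 : (φ (A + t • D)).1 = (φ A).1 + t • (φ D).1 := by
        rw [map_add, map_smul]; rfl
      rw [h1, trace_cube_line]
      simp only [Polynomial.eval_add, Polynomial.eval_mul, Polynomial.eval_C,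
        Polynomial.eval_X, Polynomial.eval_pow]
      ring
    obtain ⟨Q, hQ⟩ : ∃ Q : Polynomial K, ∀ t : K, Q.eval t = ((A + t • D).1 ^ 3).trace := by
      refine ⟨Polynomial.C (A.1 ^ 3).trace +
        Polynomial.C (3 * (A.1 ^ 2 * D.1).trace) * Polynomial.X +
        Polynomial.C (3 * (D.1 ^ 2 * A.1).trace) * Polynomial.X ^ 2 +
        Polynomial.C (D.1 ^ 3).trace * Polynomial.X ^ 3, fun t => ?_⟩
      have h1 : (A + t • D).1 = A.1 + t • D.1 := rfl
      rw [h1, trace_cube_line]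
      simp only [Polynomial.eval_add, Polynomial.eval_mul, Polynomial.eval_C,
        Polynomial.eval_X, Polynomial.eval_pow]
      ring
    have hPQ : (P - Q) * (P + Q) = 0 := by
      apply Polynomial.funext
      intro t
      rw [Polynomial.eval_mul, Polynomial.eval_sub, Polynomial.eval_add, hP, hQ,
        Polynomial.eval_zero]
      linear_combination trace_three_sq_equiv hC φ (A + t • D)
    rcases mul_eq_zero.1 hPQ with h | h
    · exfalso
      apply hA
      have h1 := congrArg (Polynomial.eval 0) h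
      rw [Polynomial.eval_sub, hP, hQ, zero_smul, add_zero, Polynomial.eval_zero] at h1
      exact sub_eq_zero.1 h1
    · have h1 := congrArg (Polynomial.eval 1) h
      have h2 : A + D = B := add_sub_cancel A B
      rw [Polynomial.eval_add, hP, hQ, one_smul, h2, Polynomial.eval_zero] at h1
      linear_combination h1

omit [CharZero K] in
/-- The trace form on `sl₄` is nondegenerate. -/
theorem trace_nondeg (h4 : (4 : K) ≠ 0) (Z : L4 K)
    (hZ : ∀ Y : L4 K, (Z.1 * Y.1).trace = 0) : Z = 0 := by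
  apply Subtype.ext
  change Z.1 = 0
  have h1 : ∀ i j, i ≠ j → Z.1 i j = 0 := by
    intro i j hij
    have h2 := hZ (mk4 (Matrix.single j i 1) (by
      rw [Matrix.trace_single_eq_of_ne _ _ _ hij.symm]))
    change (Z.1 * Matrix.single j i 1).trace = 0 at h2
    rw [Matrix.trace_mul_comm, Matrix.trace_single_mul] at h2
    simpa using h2
  have h2 : ∀ i j, Z.1 i i = Z.1 j j := by
    intro i j
    have h3 := hZ (mk4 (Matrix.single i i 1 - Matrix.single j j 1) (by
      rw [trace_sub, Matrix.trace_single_eq_same, Matrix.trace_single_eq_same, sub_self]))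
    change (Z.1 * (Matrix.single i i 1 - Matrix.single j j 1)).trace = 0 at h3
    rw [Matrix.mul_sub, trace_sub, Matrix.trace_mul_comm, Matrix.trace_single_mul,
      Matrix.trace_mul_comm Z.1 (Matrix.single j j 1), Matrix.trace_single_mul] at h3
    have h5 : (1 : K) • Z.1 i i = (1 : K) • Z.1 j j := sub_eq_zero.1 h3
    simpa using h5
  have h3 : Z.1 0 0 = 0 := by
    have h5 := trace_mem Z
    rw [Matrix.trace, Fin.sum_univ_four] at h5
    simp only [Matrix.diag_apply] at h5
    rw [h2 1 0, h2 2 0, h2 3 0] at h5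
    have h6 : (4 : K) * Z.1 0 0 = 0 := by linear_combination h5
    exact (mul_eq_zero.1 h6).resolve_left h4
  ext i j
  by_cases hij : i = j
  · subst hij
    rw [h2 i 0, h3]
    rfl
  · exact h1 i j hij

theorem sq4_coe (X : L4 K) : (sq4L X).1 = X.1 ^ 2 - ((X.1 ^ 2).trace / 4) • (1 : M4 K) := by
  change X.1 * X.1 - ((X.1 * X.1).trace / 4) • (1 : M4 K) = _
  rw [pow_two]

theorem trace_sq4_mul (X Y : L4 K) : ((sq4L X).1 * Y.1).trace = (X.1 ^ 2 * Y.1).trace := by
  rw [sq4_coe, Matrix.sub_mul, Matrix.smul_mul, Matrix.one_mul, trace_sub, trace_smul, trace_mem,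
    smul_zero, sub_zero]

/-- AD: invariants of automorphisms of `sl₄`. -/
theorem ad (K : Type*) [Field K] [CharZero K] (hC : CHC_S K) : AD_S K := by
  intro φ
  refine ⟨trace_mul_equiv φ, ?_⟩
  obtain ⟨ε, hε, h⟩ := trace_three_equiv hC φ
  refine ⟨ε, hε, fun X => ?_⟩
  have key : ∀ Y : L4 K, ((φ X).1 ^ 2 * (φ Y).1).trace = ε * (X.1 ^ 2 * Y.1).trace := by
    intro Y
    have h1 : ∀ t : K, ((φ (X + t • Y)).1 ^ 3).trace = ε * ((X + t • Y).1 ^ 3).trace :=
      fun t => h _
    have h2 : ∀ t : K, (φ (X + t • Y)).1 = (φ X).1 + t • (φ Y).1 := by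
      intro t
      rw [map_add, map_smul]; rfl
    have h3 : ∀ t : K, (X + t • Y).1 = X.1 + t • Y.1 := fun t => rfl
    simp only [h2, h3, trace_cube_line] at h1
    have h4 := h1 1
    have h5 := h1 (-1)
    have h6 : (6 : K) * ((φ X).1 ^ 2 * (φ Y).1).trace = 6 * (ε * (X.1 ^ 2 * Y.1).trace) := by
      linear_combination h4 - h5 - 2 * h Y
    exact mul_left_cancel₀ (by norm_num) h6
  rw [← sub_eq_zero]
  apply trace_nondeg (by norm_num)
  intro Y
  have h1 : ((sq4L (φ X) - ε • φ (sq4L X)).1 * Y.1).trace =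
      ((sq4L (φ X)).1 * Y.1).trace - ε * ((φ (sq4L X)).1 * Y.1).trace := by
    change (((sq4L (φ X)).1 - ε • (φ (sq4L X)).1) * Y.1).trace = _
    rw [Matrix.sub_mul, Matrix.smul_mul, trace_sub, trace_smul, smul_eq_mul]
  have h2 := key (φ.symm Y)
  rw [LieEquiv.apply_symm_apply] at h2
  have h3 := trace_mul_equiv φ (sq4L X) (φ.symm Y)
  rw [LieEquiv.apply_symm_apply] at h3
  rw [h1, trace_sq4_mul, h2, h3, trace_sq4_mul, sub_self]

end Pool.Agent.Lib.MP_d55432_al.SIX.H97
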