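import Pool.Agent.Lib.MP_d55432_al.SIX.Iface

/-!
# SIX: ALG3, algebraic independence of three polynomials from their leading exponents
-/

namespace Pool.Agent.Lib.MP_d55432_al.SIX.H97

open MvPolynomial Degrees

/-- Powers of signs with exponents of the same parity agree. -/
theorem sign_pow_add (σ : ℤ) (hσ : σ = 1 ∨ σ = -1) (a b : ℕ) :
    σ ^ (a + b) * σ ^ b = σ ^ a := by
  rcases hσ with h | h
  · rw [h]; simp
  · rw [h, ← pow_add, show a + b + b = a + 2 * b by ring, pow_add, pow_mul]; simp

/-- Integral relations between exponents with independent sign patterns are trivial. -/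
theorem relation_zero {τ : Type*} (ε : Fin 6 → τ → ℤ)
    (hε : ∀ s t, ε s t = 1 ∨ ε s t = -1) (μ : Fin 3 → τ →₀ ℕ)
    (hb : ∀ b : Fin 3 → ℕ, (∀ s, ∏ i, sgn (ε s) (μ i) ^ b i = 1) → ∀ i, Even (b i)) :
    ∀ (N : ℕ) (c : Fin 3 → ℤ), ∑ i, (c i).natAbs ≤ N →
      (∀ t, ∑ i, c i * (μ i t : ℤ) = 0) → c = 0 := by
  intro N
  induction N with
  | zero =>
    intro c hc _
    ext i
    have h1 := Finset.single_le_sum (f := fun i => (c i).natAbs) (fun _ _ => Nat.zero_le _)
      (Finset.mem_univ i)
    have h2 : (c i).natAbs = 0 := Nat.le_zero.1 (h1.trans hc)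
    exact Int.natAbs_eq_zero.1 h2
  | succ N ih =>
    intro c hc hrel
    have heven : ∀ i, Even (c i).natAbs := by
      apply hb
      intro s
      have hsum : ∑ i, (c i).toNat • μ i = ∑ i, (-c i).toNat • μ i := by
        ext t
        have h1 := hrel t
        rw [Fin.sum_univ_three] at h1
        rw [Fin.sum_univ_three, Fin.sum_univ_three]
        simp only [Finsupp.add_apply, Finsupp.smul_apply, smul_eq_mul]
        zify
        have h2 : ∀ i, ((c i).toNat : ℤ) = c i + ((-c i).toNat : ℤ) := by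
          intro i; omega
        rw [h2 0, h2 1, h2 2]
        linear_combination h1
      have h3 := congrArg (sgn (ε s)) hsum
      rw [Fin.sum_univ_three, Fin.sum_univ_three] at h3
      simp only [sgn_add, sgn_smul] at h3
      rw [Fin.prod_univ_three]
      have h4 : ∀ i, (c i).natAbs = (c i).toNat + (-c i).toNat := by
        intro i; omega
      have hs : ∀ i, sgn (ε s) (μ i) ^ (-c i).toNat * sgn (ε s) (μ i) ^ (-c i).toNat = 1 := by
        intro i
        rcases sgn_sq (ε s) (hε s) (μ i) with h | h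
        · rw [h]; simp
        · rw [h, ← mul_pow]; simp
      rw [h4 0, h4 1, h4 2, pow_add, pow_add, pow_add]
      calc _ = (sgn (ε s) (μ 0) ^ (c 0).toNat * sgn (ε s) (μ 1) ^ (c 1).toNat *
              sgn (ε s) (μ 2) ^ (c 2).toNat) * (sgn (ε s) (μ 0) ^ (-c 0).toNat *
              sgn (ε s) (μ 1) ^ (-c 1).toNat * sgn (ε s) (μ 2) ^ (-c 2).toNat) := by ring
        _ = (sgn (ε s) (μ 0) ^ (-c 0).toNat * sgn (ε s) (μ 0) ^ (-c 0).toNat) *
            (sgn (ε s) (μ 1) ^ (-c 1).toNat * sgn (ε s) (μ 1) ^ (-c 1).toNat) *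
            (sgn (ε s) (μ 2) ^ (-c 2).toNat * sgn (ε s) (μ 2) ^ (-c 2).toNat) := by
            rw [h3]; ring
        _ = 1 := by rw [hs 0, hs 1, hs 2]; norm_num
    have hc' : ∀ i, ∃ e : ℤ, c i = 2 * e := by
      intro i
      obtain ⟨e, he⟩ := Int.natAbs_even.1 (heven i)
      exact ⟨e, by omega⟩
    choose e he using hc'
    by_contra hne
    have h5 : ∑ i, (e i).natAbs ≤ N := by
      have h6 : ∑ i, (c i).natAbs = 2 * ∑ i, (e i).natAbs := by
        rw [Finset.mul_sum]
        refine Finset.sum_congr rfl fun i _ => ?_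
        rw [he i, Int.natAbs_mul]
        rfl
      have h7 : ∑ i, (e i).natAbs ≠ 0 := by
        intro h0
        apply hne
        ext i
        have h1 := Finset.single_le_sum (f := fun i => (e i).natAbs) (fun _ _ => Nat.zero_le _)
          (Finset.mem_univ i)
        have h2 : (e i).natAbs = 0 := Nat.le_zero.1 (h1.trans h0.le)
        rw [he i, Int.natAbs_eq_zero.1 h2]
        rfl
      omega
    have h8 := ih e h5 (by
      intro t
      have h1 := hrel t
      have h2 : ∑ i, c i * (μ i t : ℤ) = 2 * ∑ i, e i * (μ i t : ℤ) := by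
        rw [Finset.mul_sum]
        refine Finset.sum_congr rfl fun i _ => ?_
        rw [he i]
        ring
      rw [h2] at h1
      omega)
    apply hne
    ext i
    rw [he i, h8]
    rfl

theorem alg3 (K : Type*) [Field K] : ALG3_S K := by
  classical
  intro τ m ε hε f μ hf hd hb Φ hΦ
  have hind : ∀ d d' : Fin 3 → ℕ, (∀ t, ∑ i, d i * μ i t = ∑ i, d' i * μ i t) → d = d' := by
    intro d d' h
    have h1 := relation_zero ε hε μ hb _ (fun i => (d i : ℤ) - (d' i : ℤ)) le_rfl (by
      intro t
      have h2 := h t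
      rw [Fin.sum_univ_three] at h2 ⊢
      rw [Fin.sum_univ_three] at h2
      zify at h2
      linear_combination h2)
    ext i
    have h3 := congrFun h1 i
    simp only [Pi.zero_apply] at h3
    omega
  rw [aeval_def, eval₂_eq']
  have hs : Φ.support.Nonempty := by rwa [Finset.nonempty_iff_ne_empty, ne_eq, support_eq_empty]
  have hprod : ∀ d : Fin 3 →₀ ℕ, ∏ i, f i ^ d i ≠ 0 :=
    fun d => Finset.prod_ne_zero_iff.2 fun i _ => pow_ne_zero _ (hf i)
  have hterm : ∀ d ∈ Φ.support, m.degree (algebraMap K (MvPolynomial τ K) (coeff d Φ) *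
      ∏ i, f i ^ d i) = 2 • ∑ i, d i • μ i := by
    intro d hd'
    change m.degree (C (coeff d Φ) * ∏ i, f i ^ d i) = _
    rw [← smul_eq_C_mul, m.degree_smul_of_mem_nonZeroDivisors
      (mem_nonZeroDivisors_of_ne_zero (mem_support_iff.1 hd')), Fin.prod_univ_three,
      m.degree_mul (mul_ne_zero (pow_ne_zero _ (hf 0)) (pow_ne_zero _ (hf 1)))
        (pow_ne_zero _ (hf 2)), m.degree_mul (pow_ne_zero _ (hf 0)) (pow_ne_zero _ (hf 1)),
      m.degree_pow, m.degree_pow, m.degree_pow, hd, hd, hd, Fin.sum_univ_three]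
    ext t
    simp only [Finsupp.add_apply, Finsupp.smul_apply, smul_eq_mul]
    ring
  obtain ⟨i, _, _, h⟩ := degree_sum_distinct m Φ.support
    (fun d => algebraMap K (MvPolynomial τ K) (coeff d Φ) * ∏ i, f i ^ d i)
    (by
      intro d hd'
      refine mul_ne_zero ?_ (hprod d)
      change C (coeff d Φ) ≠ 0
      rw [ne_eq, C_eq_zero]
      exact mem_support_iff.1 hd')
    (by
      intro d hd1 d' hd2 hne h
      rw [hterm d hd1, hterm d' hd2] at h
      apply hne
      apply DFunLike.coe_injective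
      apply hind
      intro t
      have := DFunLike.congr_fun h t
      simp only [Finsupp.smul_apply, smul_eq_mul, Finsupp.finsetSum_apply] at this
      omega) hs
  exact h

end Pool.Agent.Lib.MP_d55432_al.SIX.H97
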