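import Pool.Agent.Lib.MP_d55432_al.SIX.Iface

/-!
# SIX: CLOS, the Zariski closure of the image of a Lie polynomial
-/

namespace Pool.Agent.Lib.MP_d55432_al.SIX.H97

open Matrix LieAlgebra MvPolynomial

attribute [local instance 100] LieRing.ofAssociativeRing

section maps

variable {A B : Type*} [CommRing A] [CommRing B] (f : A →+* B)

theorem pf4_map (x : M6 A) (a b c d : Fin 6) : pf4 (x.map f) a b c d = f (pf4 x a b c d) := by
  simp only [pf4, Matrix.map_apply, map_add, map_sub, map_mul]

theorem Pf_map (x : M6 A) : Pf (x.map f) = f (Pf x) := by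
  simp only [Pf, pf4_map, Matrix.map_apply, map_add, map_sub, map_mul]

theorem sharpM_map (x : M6 A) : sharpM (x.map f) = (sharpM x).map f := by
  ext i j
  fin_cases i <;> fin_cases j <;> simp [sharpM, pf4_map]

theorem s1_map (x : M6 A) : s1 (x.map f) = f (s1 x) := by
  simp only [s1, Matrix.map_apply, map_add, map_pow]

theorem s2_map (x : M6 A) : s2 (x.map f) = f (s2 x) := by
  rw [s2, sharpM_map, s1_map, s2]

theorem s3_map (x : M6 A) : s3 (x.map f) = f (s3 x) := by
  rw [s3, Pf_map, s3, map_pow]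

end maps

variable {K : Type*} [Field K]

/-- A nonconstant polynomial over an algebraically closed field is surjective. -/
theorem exists_eval_eq [IsAlgClosed K] {τ : Type*} (F : MvPolynomial τ K) (v₀ : τ → K)
    (h0 : eval 0 F = 0) (h1 : eval v₀ F ≠ 0) (r : K) : ∃ v, eval v F = r := by
  let h : Polynomial K := aeval (fun i => Polynomial.C (v₀ i) * Polynomial.X) F
  have hh : ∀ t : K, h.eval t = eval (t • v₀) F := by
    intro t
    have h2 : h.eval t = (Polynomial.aeval t) h := by
      rw [Polynomial.coe_aeval_eq_eval]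
    have h3 : (Polynomial.aeval t) h =
        ((Polynomial.aeval t).comp (aeval (fun i => Polynomial.C (v₀ i) * Polynomial.X) :
          MvPolynomial τ K →ₐ[K] Polynomial K)) F := rfl
    rw [h2, h3, comp_aeval, ← aeval_eq_eval]
    congr 2
    funext i
    change (Polynomial.aeval t) (Polynomial.C (v₀ i) * Polynomial.X) = t * v₀ i
    rw [map_mul, Polynomial.aeval_C, Polynomial.aeval_X]
    exact mul_comm _ _
  have hdeg : (h - Polynomial.C r).degree ≠ 0 := by
    intro hd
    have h2 : (h - Polynomial.C r) = Polynomial.C ((h - Polynomial.C r).coeff 0) :=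
      Polynomial.eq_C_of_degree_eq_zero hd
    have h3 := congrArg (Polynomial.eval 0) h2
    have h4 := congrArg (Polynomial.eval 1) h2
    rw [Polynomial.eval_C, Polynomial.eval_sub, Polynomial.eval_C, hh] at h3 h4
    rw [zero_smul, h0] at h3
    rw [one_smul, ← h3] at h4
    apply h1
    linear_combination h4
  obtain ⟨t, ht⟩ := IsAlgClosed.exists_root _ hdeg
  refine ⟨t • v₀, ?_⟩
  rw [← hh]
  rw [Polynomial.IsRoot.def, Polynomial.eval_sub, Polynomial.eval_C] at ht
  exact sub_eq_zero.1 ht

theorem exists_skv [CharZero K] {m : ℕ} (a : Fin m → L6 K) :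
    ∃ v : Fin m × Fin 6 × Fin 6 → K, skv v = a := by
  refine ⟨fun t => (a t.1).1 t.2.1 t.2.2, ?_⟩
  funext r
  apply Subtype.ext
  have hs : ∀ i j, (a r).1 j i = -(a r).1 i j := fun i j =>
    congrFun (congrFun ((LieAlgebra.Orthogonal.mem_so _ _ _).1 (a r).2) i) j
  ext i j
  change (if i < j then (a r).1 i j else if j < i then -(a r).1 j i else 0) = (a r).1 i j
  rcases lt_trichotomy i j with h | h | h
  · rw [if_pos h]
  · subst h
    rw [if_neg (lt_irrefl _), if_neg (lt_irrefl _)]
    have h1 := hs i i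
    have h2 : (2 : K) * (a r).1 i i = 0 := by linear_combination h1
    exact ((mul_eq_zero.1 h2).resolve_left two_ne_zero).symm
  · rw [if_neg (not_lt.2 h.le), if_pos h, ← hs]

theorem eval_aeval' {τ : Type*} {n : ℕ} (B : Fin n → MvPolynomial τ K) (Φ : MvPolynomial (Fin n) K)
    (v : τ → K) : eval v (aeval B Φ) = eval (fun i => eval v (B i)) Φ := by
  induction Φ using MvPolynomial.induction_on with
  | C a => simp
  | add p q hp hq => rw [map_add, map_add, map_add, hp, hq]
  | mul_X p i hp => rw [map_mul, map_mul, map_mul, hp, aeval_X, eval_X]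

theorem eq_zero_of_rank (X : M6 K) (h : X.rank = 0) : X = 0 := by
  have h1 : LinearMap.range X.mulVecLin = ⊥ := Submodule.finrank_eq_zero.1 h
  have h2 : X.mulVecLin = 0 := LinearMap.range_eq_bot.1 h1
  ext i j
  have h3 := congrFun (LinearMap.congr_fun h2 (Pi.single j 1)) i
  simpa using h3

/-- CLOS: the Zariski closure of the image of a Lie polynomial. -/
theorem clos (K : Type*) [Field K] [IsAlgClosed K] [CharZero K] (gen : GEN_S K) (par3 : PAR3_S K)
    (par2 : PAR2_S K) (rel3 : REL3_S K) (rel2 : REL2_S K) (rank2 : RANK2_S K)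
    (darb : DARB_S K) : CLOS_S K := by
  intro m p
  obtain ⟨F, hskew, hval, hsgn⟩ := gen m p
  obtain ⟨d1, d2, d3, d4⟩ := darb
  have hε : ∀ (s : Fin 6) (t : Fin m × Fin 6 × Fin 6), epsI s t = 1 ∨ epsI s t = -1 := by
    intro s t
    unfold epsI sgI
    split_ifs <;> simp
  have hmem : ∀ v, (FreeLieAlgebra.lift K (skv v) p : L6 K) ∈ lieImage (L6 K) p :=
    fun v => ⟨_, rfl⟩
  have himg : ∀ x ∈ lieImage (L6 K) p, ∃ v, x.1 = F.map (eval v) := by
    rintro x ⟨a, rfl⟩
    obtain ⟨v, hv⟩ := exists_skv a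
    exact ⟨v, by rw [← hval, hv]⟩
  have hzero : (0 : L6 K) ∈ lieImage (L6 K) p := ⟨0, lift_zero p⟩
  have hinv : ∀ φ : L6 K ≃ₗ⁅K⁆ L6 K, ∀ x ∈ lieImage (L6 K) p, φ x ∈ lieImage (L6 K) p :=
    fun φ x hx => aut_mem_lieImage φ x hx
  -- the case of rank 2
  have case1 : F ≠ 0 → sharpM F = 0 →
      ∀ x : L6 K, sharp x = 0 → s1 x.1 ≠ 0 → x ∈ lieImage (L6 K) p := by
    intro hF hsF x hx hx1
    have hs1 := (par2 _ epsI hε F hskew hsgn).1 hF
    obtain ⟨v₀, hv₀⟩ : ∃ v₀, eval v₀ (s1 F) ≠ 0 := by
      by_contra hcon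
      push Not at hcon
      exact hs1 (MvPolynomial.funext fun v => by rw [hcon, map_zero])
    have h00 : eval 0 (s1 F) = 0 := by
      rw [← s1_map, ← hval]
      have h3 : (skv (0 : Fin m × Fin 6 × Fin 6 → K)) = 0 := by
        funext r
        apply Subtype.ext
        ext i j
        change (if i < j then (0 : K) else if j < i then -(0 : K) else 0) = 0
        split_ifs <;> simp
      rw [h3, lift_zero p]
      change s1 (0 : M6 K) = 0
      simp [s1]
    obtain ⟨v, hv⟩ := exists_eval_eq (s1 F) v₀ h00 hv₀ (s1 x.1)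
    have h1 : sharp (FreeLieAlgebra.lift K (skv v) p : L6 K) = 0 := by
      apply Subtype.ext
      change sharpM (FreeLieAlgebra.lift K (skv v) p : L6 K).1 = 0
      rw [hval, sharpM_map, hsF]
      ext i j
      simp
    have h2 : s1 (FreeLieAlgebra.lift K (skv v) p : L6 K).1 = s1 x.1 := by
      rw [hval, s1_map, hv]
    obtain ⟨φ, hφ⟩ := rank2.2 _ x h1 hx h2 (by rw [h2]; exact hx1)
    rw [← hφ]
    exact hinv φ _ (hmem v)
  have case0 : F = 0 → lieImage (L6 K) p = {0} := by
    intro hF
    apply Set.Subset.antisymm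
    · intro x hx
      obtain ⟨v, hv⟩ := himg x hx
      apply Subtype.ext
      rw [hv, hF]
      ext i j
      simp
    · rintro _ rfl
      exact hzero
  refine ⟨?_, ?_⟩
  · by_cases hF : F = 0
    · refine ⟨0, by norm_num, ?_, ?_⟩
      · rw [case0 hF]
        rintro _ rfl
        change (0 : M6 K).rank ≤ 2 * 0
        rw [Matrix.rank_zero]
      · intro g _ hg y hy
        apply hg
        have h1 : y.1.rank = 0 := Nat.le_zero.1 hy
        have h3 : y = 0 := Subtype.ext (eq_zero_of_rank _ h1)
        rw [h3]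
        exact hzero
    by_cases hs : sharpM F = 0
    · refine ⟨1, by norm_num, ?_, ?_⟩
      · intro x hx
        obtain ⟨v, hv⟩ := himg x hx
        refine (d1 x).2 (Subtype.ext ?_)
        change sharpM x.1 = 0
        rw [hv, sharpM_map, hs]
        ext i j
        simp
      · intro g hg hgS y hy
        obtain ⟨u, v, rfl⟩ := (d3 y).1 hy
        exact rank2.1 g hg (fun x hx hx1 => hgS x (case1 hF hs x hx hx1)) u v
    by_cases hp : Pf F = 0
    · have hPf : ∀ x ∈ lieImage (L6 K) p, Pf x.1 = 0 := by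
        intro x hx
        obtain ⟨v, hv⟩ := himg x hx
        rw [hv, Pf_map, hp, map_zero]
      refine ⟨2, by norm_num, fun x hx => (d2 x).2 (hPf x hx), ?_⟩
      intro g hg hgS y hy
      by_contra hgy
      obtain ⟨u, v, u', v', rfl⟩ := (d4 y).1 hy
      obtain ⟨Φ, hΦ, hrel⟩ := rel2 _ hinv hPf g hg hgS ⟨u, v, u', v', hgy⟩
      refine (par2 _ epsI hε F hskew hsgn).2 hs Φ hΦ (MvPolynomial.funext fun w => ?_)
      rw [map_zero, ← hrel _ (hmem w), eval_aeval', hval]
      congr 2
      funext i
      fin_cases i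
      · exact (s1_map _ _).symm
      · exact (s2_map _ _).symm
    · refine ⟨3, le_rfl, fun x _ => ?_, ?_⟩
      · have h := x.1.rank_le_card_height
        rw [Fintype.card_fin] at h
        exact h
      intro g hg hgS y _
      by_contra hgy
      obtain ⟨Φ, hΦ, hrel⟩ := rel3 _ hinv g hg hgS ⟨y, hgy⟩
      refine par3 _ epsI hε F hskew hsgn hp Φ hΦ (MvPolynomial.funext fun w => ?_)
      rw [map_zero, ← hrel _ (hmem w), eval_aeval', hval]
      congr 2
      funext i
      fin_cases i
      · exact (s1_map _ _).symm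
      · exact (s2_map _ _).symm
      · exact (s3_map _ _).symm
  · intro hsub
    by_cases hF : F = 0
    · exact Or.inl (case0 hF)
    · right
      apply case1 hF
      ext1 i j
      apply MvPolynomial.funext
      intro v
      have h1 : sharp (FreeLieAlgebra.lift K (skv v) p : L6 K) = 0 := (d1 _).1 (hsub (hmem v))
      have h2 : sharpM (F.map (eval v)) = 0 := by
        rw [← hval]
        exact congrArg Subtype.val h1
      rw [sharpM_map] at h2
      have h3 := congrFun (congrFun h2 i) j
      rw [Matrix.map_apply] at h3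
      rw [h3]
      simp

end Pool.Agent.Lib.MP_d55432_al.SIX.H97
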